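import Mathlib
import Pool.Agent.MP_c5dce0_nt.Core

set_option autoImplicit false

namespace Pool.Agent.Results.MP_c5dce0_nt.Valuation

open PowerSeries
open scoped PowerSeries.WithPiTopology

/-- `S k m n` is the coefficient of `x^n` in
`1/(1-x)^m * ∏_{i ≥ 0} 1/(1-x^(k^i))^(m(k-1))`, an infinite product of integer power series
taken in the topology of coefficientwise convergence. -/
noncomputable def S (k m n : ℕ) : ℤ :=
  PowerSeries.coeff n
    ((PowerSeries.invOfUnit (1 - PowerSeries.X : PowerSeries ℤ) 1) ^ m *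
      ∏' i : ℕ, (PowerSeries.invOfUnit (1 - PowerSeries.X ^ (k ^ i) : PowerSeries ℤ) 1) ^
        (m * (k - 1)))

open Pool.Agent.MP_c5dce0_nt

theorem multipliable_e (c : ℕ) : Multipliable (fun i : ℕ => e (4 ^ i) ^ c) := by
  have h : (fun i : ℕ => e (4 ^ i) ^ c) = fun i => 1 + (e (4 ^ i) ^ c - 1) := by
    funext i
    ring
  rw [h]
  apply PowerSeries.WithPiTopology.multipliable_one_add_of_tendsto_order_atTop_nhds_top
  refine ENat.tendsto_nhds_top_iff_natCast_lt.mpr (fun n => Filter.eventually_atTop.mpr ⟨n, ?_⟩)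
  intro i hi
  have h1 : (X : ℤ⟦X⟧) ^ (4 ^ i) ∣ e (4 ^ i) - 1 :=
    ⟨e (4 ^ i), by linear_combination mul_e (show 4 ^ i ≠ 0 by positivity)⟩
  have h2 : (X : ℤ⟦X⟧) ^ (4 ^ i) ∣ e (4 ^ i) ^ c - 1 := by
    have := sub_dvd_pow_sub_pow (e (4 ^ i)) 1 c
    rw [one_pow] at this
    exact h1.trans this
  have h3 : ((4 ^ i : ℕ) : ℕ∞) ≤ (e (4 ^ i) ^ c - 1).order :=
    nat_le_order _ _ (fun j hj => (X_pow_dvd_iff.mp h2) j hj)
  have h4 : n < 4 ^ i := lt_of_le_of_lt hi (Nat.lt_pow_self (by norm_num))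
  exact lt_of_lt_of_le (by exact_mod_cast h4) h3

theorem S_eq (m n : ℕ) : ∃ N, n < 4 ^ N ∧ S 4 m n = coeff n (T N ^ m) := by
  have h1 := (multipliable_e (m * (4 - 1))).hasProd.tendsto_prod_nat
  have h2 : Continuous (fun f : ℤ⟦X⟧ => coeff n (e 1 ^ m * f)) :=
    (PowerSeries.WithPiTopology.continuous_coeff ℤ n).comp (continuous_const.mul continuous_id)
  have h3 := (h2.tendsto _).comp h1
  rw [nhds_discrete, Filter.tendsto_pure, Filter.eventually_atTop] at h3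
  obtain ⟨N0, hN0⟩ := h3
  refine ⟨max N0 n, lt_of_le_of_lt (le_max_right _ _) (Nat.lt_pow_self (by norm_num)), ?_⟩
  have h4 := hN0 (max N0 n) (le_max_left _ _)
  simp only [Function.comp] at h4
  have h5 : S 4 m n = coeff n (e 1 ^ m * ∏' i : ℕ, e (4 ^ i) ^ (m * (4 - 1))) := by
    simp only [S, e, pow_one]
  rw [h5, ← h4, T, mul_pow, ← Finset.prod_pow]
  congr 2
  apply Finset.prod_congr rfl
  intro i _
  rw [← pow_mul, mul_comm]

theorem result (s n : ℕ) (hs : 2 ≤ s) (hn : 1 ≤ n) :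
    S 4 (2 ^ s) n ≠ 0 ∧
      padicValInt 2 (S 4 (2 ^ s) n) = s + 1 + padicValNat 2 (2 * n) % 2 := by
  obtain ⟨N, hN, h⟩ := S_eq (2 ^ s) n
  rw [h]
  exact T_val N s n hs hn hN

end Pool.Agent.Results.MP_c5dce0_nt.Valuation
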